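import Pool.Agent.Helper34_GO.Scl

/-! MT100GO, module COM. -/

set_option autoImplicit false

namespace Pool.Agent.MT100GO.H34

open Matrix Pool.Agent.MT100G Pool.Agent.Helper78_MT

variable {d : Type*} [Fintype d] [DecidableEq d]

/-- the generic matrix -/
noncomputable def gm (d : Type*) : Matrix d d (MvPolynomial (d × d) ℂ) :=
  Matrix.of fun i j => MvPolynomial.X (i, j)

/-- a constant matrix -/
noncomputable def cm (A : Matrix d d ℂ) : Matrix d d (MvPolynomial (d × d) ℂ) :=
  A.map MvPolynomial.C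

theorem gm_map (g : Matrix d d ℂ) : (gm d).map (pev (F := ℂ) g) = g := by
  ext i j
  simp [gm, pev_X]

omit [Fintype d] [DecidableEq d] in
theorem cm_map (g A : Matrix d d ℂ) : (cm A).map (pev (F := ℂ) g) = A := by
  ext i j
  simp [cm]

theorem com (hscl : SclStmt) : ComStmt := by
  intro d _ _ J0 hs hu h5 M hdense hM a ha hns
  by_contra hcon
  push Not at hcon
  obtain ⟨hs1, hs2, _⟩ := hscl d J0 hs hu (by omega)
  set J : Matrix d d ℂ := J0.map (algebraMap ℚ ℂ) with hJdef
  have hJ : Jᵀ = J := by rw [hJdef, ← transpose_map, hs]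
  have hJu : IsUnit J.det := by
    have : J.det = algebraMap ℚ ℂ J0.det := by
      rw [hJdef, ← RingHom.mapMatrix_apply, ← RingHom.map_det]
    rw [this]
    exact hu.map _
  have hAu : ∀ g ∈ Aut J0, IsUnit g.det := by
    intro g hg
    have h1 := congrArg Matrix.det (show gᵀ * J * g = J from hg)
    rw [det_mul, det_mul, det_transpose] at h1
    refine isUnit_iff_ne_zero.mpr ?_
    intro h0
    rw [h0] at h1
    simp only [mul_zero] at h1
    exact hJu.ne_zero h1.symm
  have hinv : ∀ g ∈ Aut J0, J⁻¹ * gᵀ * J = g⁻¹ := by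
    intro g hg
    have h1 : (J⁻¹ * gᵀ * J) * g = 1 := by
      have : gᵀ * J * g = J := hg
      rw [show (J⁻¹ * gᵀ * J) * g = J⁻¹ * (gᵀ * J * g) by noncomm_ring, this,
        Matrix.nonsing_inv_mul _ hJu]
    exact (Matrix.inv_eq_left_inv h1).symm
  set Pm : Matrix d d (MvPolynomial (d × d) ℂ) :=
    cm a * gm d * cm a⁻¹ * (cm J⁻¹ * (gm d)ᵀ * cm J) with hPm
  have hval : ∀ g : Matrix d d ℂ, Pm.map (pev (F := ℂ) g) =
      a * g * a⁻¹ * (J⁻¹ * gᵀ * J) := by
    intro g
    have e1 : ∀ A : Matrix d d (MvPolynomial (d × d) ℂ), A.map (pev (F := ℂ) g) =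
        (pev (F := ℂ) g).toRingHom.mapMatrix A := fun A => rfl
    rw [e1, hPm]
    simp only [map_mul]
    have e2 : (pev (F := ℂ) g).toRingHom.mapMatrix (gm d)ᵀ = gᵀ := by
      rw [← e1, transpose_map, gm_map]
    rw [e2, ← e1, ← e1, ← e1, ← e1, ← e1, gm_map, cm_map, cm_map, cm_map, cm_map]
  have hent : ∀ g : Matrix d d ℂ, ∀ i j, pev (F := ℂ) g (Pm i j) =
      (a * g * a⁻¹ * (J⁻¹ * gᵀ * J)) i j := by
    intro g i j
    rw [← hval g]; rfl
  -- the matrices are scalar on all of the special orthogonal group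
  have hscal : ∀ g ∈ SAut J0, Scal (a * g * a⁻¹ * g⁻¹) := by
    intro g hg
    have hoff : ∀ i j : d, i ≠ j → (a * g * a⁻¹ * g⁻¹) i j = 0 := by
      intro i j hij
      have h1 := hdense (Pm i j) ?_ g hg
      · rw [hent, hinv g hg.1] at h1
        exact h1
      · intro m hm
        rw [hent, hinv m (hM hm)]
        obtain ⟨c, hc⟩ := hcon m hm
        rw [hc]
        simp [hij]
    have hdiag : ∀ i j : d, (a * g * a⁻¹ * g⁻¹) i i = (a * g * a⁻¹ * g⁻¹) j j := by
      intro i j
      have h1 := hdense (Pm i i - Pm j j) ?_ g hg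
      · rw [map_sub, hent, hent, hinv g hg.1] at h1
        exact sub_eq_zero.mp h1
      · intro m hm
        rw [map_sub, hent, hent, hinv m (hM hm)]
        obtain ⟨c, hc⟩ := hcon m hm
        rw [hc]
        simp
    obtain ⟨i0⟩ : Nonempty d := by
      rw [← Fintype.card_pos_iff]; omega
    refine ⟨(a * g * a⁻¹ * g⁻¹) i0 i0, ?_⟩
    ext p q
    by_cases hpq : p = q
    · subst hpq
      rw [hdiag p i0]
      simp
    · rw [hoff p q hpq]
      simp [hpq]
  -- so `a` commutes with the unipotent matrices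
  apply hns
  apply hs1 a ha
  intro X hX3 hXs
  have hnil : IsNilpotent X := ⟨3, hX3⟩
  have htX : X.trace = 0 := (Matrix.isNilpotent_trace_of_isNilpotent hnil).eq_zero
  have htX2 : (X ^ 2).trace = 0 :=
    (Matrix.isNilpotent_trace_of_isNilpotent (hnil.pow_of_pos (by norm_num))).eq_zero
  have hcs : ∀ s : ℂ, a * (1 + s • X + (s ^ 2 / 2) • X ^ 2) =
      (1 + s • X + (s ^ 2 / 2) • X ^ 2) * a := by
    intro s
    obtain ⟨hg, -⟩ := hs2 X hX3 hXs s
    set g := 1 + s • X + (s ^ 2 / 2) • X ^ 2 with hgdef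
    obtain ⟨c, hc⟩ := hscal g hg
    have hgu := hAu g hg.1
    have hau := hAu a ha
    have h1 : a * g * a⁻¹ = c • g := by
      have : (a * g * a⁻¹ * g⁻¹) * g = a * g * a⁻¹ := by
        rw [Matrix.mul_assoc, Matrix.nonsing_inv_mul _ hgu, mul_one]
      rw [← this, hc, Matrix.smul_mul, one_mul]
    have h2 : g.trace = c * g.trace := by
      have h3 := congrArg Matrix.trace h1
      rw [trace_smul, smul_eq_mul, Matrix.trace_mul_comm, ← Matrix.mul_assoc,
        Matrix.nonsing_inv_mul _ hau, one_mul] at h3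
      exact h3
    have h4 : g.trace = (Fintype.card d : ℂ) := by
      rw [hgdef, trace_add, trace_add, trace_smul, trace_smul, htX, htX2, trace_one]
      simp
    have h5' : g.trace ≠ 0 := by
      rw [h4]
      have : Fintype.card d ≠ 0 := by omega
      exact_mod_cast this
    have h6 : c = 1 := by
      have : (1 - c) * g.trace = 0 := by linear_combination h2
      rcases mul_eq_zero.mp this with h | h
      · linear_combination -h
      · exact absurd h h5'
    rw [h6, one_smul] at h1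
    have : (a * g * a⁻¹) * a = a * g := by
      rw [Matrix.mul_assoc, Matrix.nonsing_inv_mul _ hau, mul_one]
    rw [← this, h1]
  have h1 := hcs 1
  have h2 := hcs (-1)
  have h3 : (2 : ℂ) • (a * X) = (2 : ℂ) • (X * a) := by
    have e1 : a * (1 + (1 : ℂ) • X + ((1 : ℂ) ^ 2 / 2) • X ^ 2) -
        a * (1 + (-1 : ℂ) • X + ((-1 : ℂ) ^ 2 / 2) • X ^ 2) = (2 : ℂ) • (a * X) := by
      rw [← mul_sub, ← Matrix.mul_smul]
      refine congrArg (fun Z => a * Z) ?_
      module
    have e2 : (1 + (1 : ℂ) • X + ((1 : ℂ) ^ 2 / 2) • X ^ 2) * a -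
        (1 + (-1 : ℂ) • X + ((-1 : ℂ) ^ 2 / 2) • X ^ 2) * a = (2 : ℂ) • (X * a) := by
      rw [← sub_mul, ← Matrix.smul_mul]
      refine congrArg (fun Z => Z * a) ?_
      module
    rw [← e1, ← e2, h1, h2]
  exact smul_right_injective _ two_ne_zero h3

end Pool.Agent.MT100GO.H34
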