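import Pool.Agent.MT100GO.Stmts
import Pool.Agent.MT100.Main

/-! MT100GO, module MAIN: assembly from ELG, HDF, LAD. -/

set_option autoImplicit false

namespace Pool.Agent.MT100GO.H34

open Matrix Pool.Agent.MT100 Pool.Agent.MT100G Pool.Agent.Helper78_MT

universe u v

/-- a multilinear map which vanishes on a product of sets vanishes on the product of the spans -/
theorem ml_span {k : ℕ} {W : Type*} [AddCommGroup W] [Module ℂ W]
    (f : MultilinearMap ℂ (fun _ : Fin k => W) ℂ) (S : Fin k → Set W)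
    (h : ∀ y : Fin k → W, (∀ j, y j ∈ S j) → f y = 0) :
    ∀ x : Fin k → W, (∀ j, x j ∈ Submodule.span ℂ (S j)) → f x = 0 := by
  have key : ∀ s : Finset (Fin k), ∀ x : Fin k → W, (∀ j, x j ∈ Submodule.span ℂ (S j)) →
      (∀ j, j ∉ s → x j ∈ S j) → f x = 0 := by
    intro s
    induction s using Finset.induction_on with
    | empty => exact fun x _ hx => h x fun j => hx j (by simp)
    | insert a s has ih =>
      intro x hx hxs
      have hgen : ∀ z ∈ Submodule.span ℂ (S a), f (Function.update x a z) = 0 := by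
        intro z hz
        induction hz using Submodule.span_induction with
        | mem z hz =>
          apply ih
          · intro j
            by_cases hj : j = a
            · subst hj
              rw [Function.update_self]
              exact Submodule.subset_span hz
            · rw [Function.update_of_ne hj]
              exact hx j
          · intro j hj
            by_cases hja : j = a
            · subst hja
              rw [Function.update_self]
              exact hz
            · rw [Function.update_of_ne hja]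
              exact hxs j (by simp [hja, hj])
        | zero => exact f.map_coord_zero a (by simp)
        | add z z' _ _ h1 h2 => rw [f.map_update_add, h1, h2, add_zero]
        | smul c z _ h1 => rw [f.map_update_smul, h1, smul_zero]
      have := hgen (x a) (hx a)
      rwa [Function.update_eq_self] at this
  intro x hx
  exact key Finset.univ x hx fun j hj => absurd (Finset.mem_univ j) hj

variable {n : Type*} [Fintype n]

/-- the multilinear form with coefficients `t` -/
noncomputable def tm (t : (Fin 4 → n) → ℚ) : MultilinearMap ℂ (fun _ : Fin 4 => n → ℂ) ℂ :=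
  ∑ β : Fin 4 → n, (t β : ℂ) • (MultilinearMap.mkPiAlgebra ℂ (Fin 4) ℂ).compLinearMap
    (fun j => (LinearMap.proj (β j) : (n → ℂ) →ₗ[ℂ] ℂ))

theorem tm_apply (t : (Fin 4 → n) → ℚ) (x : Fin 4 → n → ℂ) :
    tm t x = ∑ β, (t β : ℂ) * ∏ j, x j (β j) := by
  simp [tm]

theorem main (helg : ElgStmt) (hhdf : HdfStmt.{u}) (hlad : LadStmt.{u, v}) :
    MainGOStmt.{u, v} := by
  intro d _ _ F h5 w lev hlev
  obtain ⟨n1, hn1⟩ := helg d F h5 4 {a | 2 * w < ∑ j, lev (a j)}
  refine ⟨n1, fun P hP => ?_⟩
  set S : Set ℕ := {n | ∃ (E : Matrix d d ℚ) (V : ℕ → Submodule ℂ (d → ℂ)), PolHodge w E V ∧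
    FlatO F P E ∧ HasFilO F lev P n V ∧
    ¬ (∀ (K : Type u) [Field K] [CharZero K], mtGroup w V K = simO E K)} with hS
  -- facts on flat polarisations
  have hJC : IsUnit ((F.J0).map (algebraMap ℚ ℂ)).det := by
    have : ((F.J0).map (algebraMap ℚ ℂ)).det = algebraMap ℚ ℂ F.J0.det := by
      rw [← RingHom.mapMatrix_apply, ← RingHom.map_det]
    rw [this]
    exact F.unit.map _
  set J : Matrix d d ℂ := (F.J0).map (algebraMap ℚ ℂ) with hJ
  have hJs : Jᵀ = J := by rw [hJ, ← transpose_map, F.symm]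
  have hJinv : (F.J0⁻¹).map (algebraMap ℚ ℂ) = J⁻¹ := by
    have h1 : (F.J0⁻¹).map (algebraMap ℚ ℂ) * J = 1 := by
      rw [hJ, ← Matrix.map_mul, Matrix.nonsing_inv_mul _ F.unit]
      simp
    exact (Matrix.inv_eq_left_inv h1).symm
  have hEs : ∀ E : Matrix d d ℚ, FlatO F P E → Eᵀ = E := by
    rintro E ⟨c, hc, hE⟩
    have h1 : Pᵀ * (Eᵀ).map (algebraMap ℚ ℂ) * P = Pᵀ * E.map (algebraMap ℚ ℂ) * P := by
      have h2 := congrArg Matrix.transpose hE
      rw [transpose_mul, transpose_mul, transpose_transpose, transpose_smul, hJinv,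
        Matrix.transpose_nonsing_inv, hJs, ← hJinv, ← hE, ← Matrix.mul_assoc, ← transpose_map] at h2
      exact h2
    have h3 : (Eᵀ).map (algebraMap ℚ ℂ) = E.map (algebraMap ℚ ℂ) := by
      have hPt : IsUnit Pᵀ.det := by rw [det_transpose]; exact hP
      have h4 : Pᵀ * (Eᵀ).map (algebraMap ℚ ℂ) = Pᵀ * E.map (algebraMap ℚ ℂ) := by
        have := congrArg (fun Z => Z * P⁻¹) h1
        simpa [Matrix.mul_assoc, Matrix.mul_nonsing_inv _ hP] using this
      have := congrArg (fun Z => Pᵀ⁻¹ * Z) h4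
      simpa [← Matrix.mul_assoc, Matrix.nonsing_inv_mul _ hPt] using this
    ext i j
    have := congrFun (congrFun h3 i) j
    simpa using this
  obtain ⟨i0⟩ : Nonempty d := by
    rw [← Fintype.card_pos_iff]; omega
  have hEven : ∀ (E : Matrix d d ℚ) (V : ℕ → Submodule ℂ (d → ℂ)), PolHodge w E V →
      FlatO F P E → Even w := by
    intro E V hV hfl
    by_contra hodd
    rw [Nat.not_even_iff_odd] at hodd
    have h1 := hV.symm
    rw [hEs E hfl, hodd.neg_one_pow, neg_one_smul] at h1
    have hE0 : E = 0 := by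
      ext i j
      have := congrFun (congrFun h1 i) j
      simp only [Matrix.neg_apply] at this
      simp only [Matrix.zero_apply]
      linarith
    have h2 := hV.nondeg
    have : Nonempty d := ⟨i0⟩
    rw [hE0, Matrix.det_zero] at h2
    exact h2.ne_zero rfl
  -- the periods are linearly independent
  have hper0 : ∀ (n : ℕ) (E : Matrix d d ℚ) (V : ℕ → Submodule ℂ (d → ℂ)), PolHodge w E V →
      HasFilO F lev P n V → ∀ a, perO F P n a ≠ 0 := by
    intro n E V hV hfil a
    have h0 := hfil 0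
    have htop : (⨆ p' ∈ Set.Ici 0, V p') = ⊤ := by
      rw [eq_top_iff, ← hV.span]
      exact iSup_le fun p => le_iSup₂_of_le p (Nat.zero_le p) le_rfl
    rw [htop] at h0
    have hset : {y | ∃ a : d, 0 ≤ lev a ∧ y = perO F P n a} = Set.range (perO F P n) := by
      ext y
      constructor
      · rintro ⟨a, -, rfl⟩; exact ⟨a, rfl⟩
      · rintro ⟨a, rfl⟩; exact ⟨a, Nat.zero_le _, rfl⟩
    rw [hset] at h0
    have hli : LinearIndependent ℂ (perO F P n) :=
      linearIndependent_of_top_le_span_of_card_eq_finrank h0.le (by simp)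
    exact hli.ne_zero a
  have hpexists : ∀ (n : ℕ) (E : Matrix d d ℚ) (V : ℕ → Submodule ℂ (d → ℂ)), PolHodge w E V →
      HasFilO F lev P n V → ∃ p, w < 2 * p ∧ V p ≠ ⊥ := by
    intro n E V hV hfil
    obtain ⟨a, ha⟩ := hlev
    by_contra hcon
    push Not at hcon
    have h1 : perO F P n a ∈ (⨆ p' ∈ Set.Ici (lev a), V p') := by
      rw [hfil (lev a)]
      exact Submodule.subset_span ⟨a, le_rfl, rfl⟩
    have h2 : (⨆ p' ∈ Set.Ici (lev a), V p') = ⊥ := by
      rw [eq_bot_iff]
      refine iSup₂_le fun p' hp' => ?_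
      rw [Set.mem_Ici] at hp'
      rw [hcon p' (by omega)]
    rw [h2, Submodule.mem_bot] at h1
    exact hper0 n E V hV hfil a h1
  -- spans
  have hfspan : ∀ (V : ℕ → Submodule ℂ (d → ℂ)) (l : ℕ), (⨆ p' ∈ Set.Ici l, V p') =
      Submodule.span ℂ {y | ∃ p', l ≤ p' ∧ y ∈ V p'} := by
    intro V l
    apply le_antisymm
    · refine iSup₂_le fun p' hp' y hy => Submodule.subset_span ⟨p', hp', hy⟩
    · rw [Submodule.span_le]
      rintro y ⟨p', hp', hy⟩
      exact (le_iSup₂_of_le p' hp' le_rfl : V p' ≤ _) hy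
  have hcond : ∀ n ∈ S, ∃ t : (Fin 4 → d) → ℚ,
      (∀ a ∈ {a : Fin 4 → d | 2 * w < ∑ j, lev (a j)},
        ∑ β, (t β : ℂ) * ∏ j, perO F P n (a j) (β j) = 0) ∧
      ∃ g ∈ SAut F.J0, ∃ a ∈ {a : Fin 4 → d | 2 * w < ∑ j, lev (a j)},
        ∑ β, (t β : ℂ) * ∏ j, (P *ᵥ (YH F.H F.N n * g) (a j)) (β j) ≠ 0 := by
    rintro n ⟨E, V, hV, hfl, hfil, hne⟩
    obtain ⟨t, ht1, G, hG, p, x, hx, hp, htx⟩ := hhdf d w E V (hEven E V hV hfl) hV h5
      (hpexists n E V hV hfil) hne
    refine ⟨t, ?_, ?_⟩
    · intro a ha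
      rw [← tm_apply]
      apply ml_span (tm t) (fun j => {y | ∃ p', lev (a j) ≤ p' ∧ y ∈ V p'})
      · intro y hy
        choose p' hp' hyp using hy
        rw [tm_apply]
        apply ht1 p' y hyp
        refine lt_of_lt_of_le (show 2 * w < ∑ j, lev (a j) from ha) ?_
        exact Finset.sum_le_sum fun j _ => hp' j
      · intro j
        rw [← hfspan, hfil]
        exact Submodule.subset_span ⟨a j, le_rfl, rfl⟩
    · -- the matrix
      have hPt : IsUnit Pᵀ.det := by rw [det_transpose]; exact hP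
      set g : Matrix d d ℂ := (P⁻¹ * G * P)ᵀ with hg
      have hgS : g ∈ SAut F.J0 := by
        obtain ⟨c, hc, hE⟩ := hfl
        rw [hJinv] at hE
        have hG1 : Gᵀ * E.map (algebraMap ℚ ℂ) * G = E.map (algebraMap ℚ ℂ) := hG.1
        have e1 : g * (Pᵀ * E.map (algebraMap ℚ ℂ) * P) * gᵀ =
            Pᵀ * E.map (algebraMap ℚ ℂ) * P := by
          have e2 : g = Pᵀ * Gᵀ * Pᵀ⁻¹ := by
            rw [hg, transpose_mul, transpose_mul, Matrix.transpose_nonsing_inv, ← Matrix.mul_assoc]
          rw [hg, transpose_transpose, ← hg, e2]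
          calc Pᵀ * Gᵀ * Pᵀ⁻¹ * (Pᵀ * E.map (algebraMap ℚ ℂ) * P) * (P⁻¹ * G * P)
              = Pᵀ * Gᵀ * (Pᵀ⁻¹ * Pᵀ) * E.map (algebraMap ℚ ℂ) * (P * P⁻¹) * G * P := by
                noncomm_ring
            _ = Pᵀ * (Gᵀ * E.map (algebraMap ℚ ℂ) * G) * P := by
                rw [Matrix.nonsing_inv_mul _ hPt, Matrix.mul_nonsing_inv _ hP]
                noncomm_ring
            _ = _ := by rw [hG1]
        rw [hE, Matrix.mul_smul, Matrix.smul_mul] at e1
        have e3 : g * J⁻¹ * gᵀ = J⁻¹ := smul_right_injective _ hc e1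
        have e4 : g * (J⁻¹ * gᵀ * J) = 1 := by
          rw [show g * (J⁻¹ * gᵀ * J) = g * J⁻¹ * gᵀ * J by noncomm_ring, e3,
            Matrix.nonsing_inv_mul _ hJC]
        have e5 : (J⁻¹ * gᵀ * J) * g = 1 := mul_eq_one_comm.mp e4
        refine ⟨?_, ?_⟩
        · show gᵀ * J * g = J
          have e6 : J * (J⁻¹ * gᵀ * J * g) = J := by rw [e5, mul_one]
          rw [show J * (J⁻¹ * gᵀ * J * g) = (J * J⁻¹) * gᵀ * J * g by noncomm_ring,
            Matrix.mul_nonsing_inv _ hJC, one_mul] at e6
          exact e6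
        · rw [hg, det_transpose, det_mul, det_mul, hG.2, mul_one, ← det_mul,
            Matrix.nonsing_inv_mul _ hP, det_one]
      have hrow : ∀ b : d, P *ᵥ (YH F.H F.N n * g) b = G *ᵥ perO F P n b := by
        intro b
        have e1 : (YH F.H F.N n * g) b = gᵀ *ᵥ (YH F.H F.N n b) := by
          ext i
          simp [Matrix.mul_apply, mulVec, dotProduct, mul_comm]
        rw [e1, hg, transpose_transpose, perO, mulVec_mulVec, mulVec_mulVec]
        congr 1
        rw [← Matrix.mul_assoc, ← Matrix.mul_assoc, Matrix.mul_nonsing_inv _ hP, one_mul]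
      refine ⟨g, hgS, ?_⟩
      by_contra hcon
      push Not at hcon
      apply htx
      rw [← tm_apply]
      have hml := ml_span ((tm t).compLinearMap fun _ => Matrix.mulVecLin G)
        (fun j => {y | ∃ b : d, p j ≤ lev b ∧ y = perO F P n b}) ?_ x ?_
      · simpa using hml
      · intro y hy
        choose b hb hyb using hy
        rw [MultilinearMap.compLinearMap_apply, tm_apply]
        have := hcon b (lt_of_lt_of_le hp (Finset.sum_le_sum fun j _ => hb j))
        rw [← this]
        refine Finset.sum_congr rfl fun β _ => ?_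
        congr 1
        refine Finset.prod_congr rfl fun j _ => ?_
        rw [hrow, hyb j]
        rfl
      · intro j
        rw [← hfil (p j), hfspan]
        exact Submodule.subset_span ⟨p j, le_rfl, hx j⟩
  obtain ⟨hwin, hdens⟩ := hn1 P hP S hcond
  refine ⟨S, hdens, hwin, ?_⟩
  intro n hn E V hV hfl hfil
  have hmt : ∀ (K : Type u) [Field K] [CharZero K], mtGroup w V K = simO E K := by
    by_contra hcon
    exact hn ⟨E, V, hV, hfl, hfil, hcon⟩
  refine ⟨hmt, ?_⟩
  intro ℓ _ Γ _ ρ hρ K _ _ _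
  rw [hlad d E ℚ_[ℓ] Γ ρ (hEs E hfl) hV.nondeg h5 hρ K, hmt K]

end Pool.Agent.MT100GO.H34
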