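import Pool.Agent.MT100GO.Stmts

/-! Symmetric forms over the complex numbers: reduction to the standard form, isotropic bivectors. -/

set_option autoImplicit false

namespace Pool.Agent.MT100GO.H34

open Matrix

variable {d : Type*} [Fintype d] [DecidableEq d]

omit [DecidableEq d] in
/-- the bilinear form of a symmetric matrix -/
theorem dot_symm (A : Matrix d d ℂ) (hA : Aᵀ = A) (x y : d → ℂ) :
    x ⬝ᵥ (A *ᵥ y) = y ⬝ᵥ (A *ᵥ x) := by
  rw [dotProduct_comm, ← vecMul_transpose, hA, dotProduct_mulVec]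

/-- a nondegenerate symmetric matrix over the complex numbers is congruent to one -/
theorem exists_congr (J : Matrix d d ℂ) (hs : Jᵀ = J) (hu : IsUnit J.det) :
    ∃ C : Matrix d d ℂ, IsUnit C.det ∧ Cᵀ * J * C = 1 := by
  classical
  have h2 : (2 : ℂ) ≠ 0 := two_ne_zero
  let _ : Invertible (2 : ℂ) := invertibleOfNonzero h2
  have key : ∀ A : Matrix d d ℂ, Aᵀ = A → IsUnit A.det →
      (QuadraticMap.associated (R := ℂ) (Matrix.toQuadraticForm' A)).SeparatingLeft := by
    intro A hA hd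
    have h1 : (QuadraticMap.associated (R := ℂ) (Matrix.toQuadraticForm' A)) =
        Matrix.toLinearMap₂' ℂ A := by
      unfold Matrix.toQuadraticForm'
      apply QuadraticMap.associated_left_inverse
      intro x y
      rw [Matrix.toLinearMap₂'_apply', Matrix.toLinearMap₂'_apply', dot_symm A hA]
    rw [h1]
    exact (LinearMap.separatingLeft_toLinearMap₂'_iff_det_ne_zero).mpr hd.ne_zero
  obtain ⟨f⟩ := QuadraticForm.equivalent_of_isAlgClosed (Matrix.toQuadraticForm' (1 : Matrix d d ℂ))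
    (Matrix.toQuadraticForm' J) (key 1 transpose_one (by simp)) (key J hs hu)
  have hf : ∀ x : d → ℂ, (f x) ⬝ᵥ (J *ᵥ (f x)) = x ⬝ᵥ x := by
    intro x
    have := f.map_app x
    simpa [Matrix.toQuadraticForm', Matrix.toLinearMap₂'_apply'] using this
  set L : (d → ℂ) →ₗ[ℂ] (d → ℂ) := (f.toLinearEquiv : (d → ℂ) →ₗ[ℂ] (d → ℂ)) with hL
  set C := LinearMap.toMatrix' L with hC
  have hCx : ∀ x, C *ᵥ x = f x := by
    intro x
    rw [hC, ← Matrix.toLin'_apply, Matrix.toLin'_toMatrix']
    rfl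
  have hq : ∀ x y : d → ℂ, x ⬝ᵥ ((Cᵀ * J * C) *ᵥ y) = x ⬝ᵥ y := by
    intro x y
    have e1 : ∀ x y : d → ℂ, x ⬝ᵥ ((Cᵀ * J * C) *ᵥ y) = (f x) ⬝ᵥ (J *ᵥ (f y)) := by
      intro x y
      rw [← mulVec_mulVec, ← mulVec_mulVec, hCx, dotProduct_mulVec, vecMul_transpose, hCx]
    rw [e1]
    have a1 := hf (x + y)
    have a2 := hf x
    have a3 := hf y
    have e2 : f (x + y) = f x + f y := map_add f.toLinearEquiv x y
    rw [e2, mulVec_add, add_dotProduct, dotProduct_add, dotProduct_add, add_dotProduct,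
      dotProduct_add, dotProduct_add, a2, a3, dot_symm J hs (f y) (f x), dotProduct_comm y x] at a1
    have : (2 : ℂ) * (f x ⬝ᵥ J *ᵥ f y) = 2 * (x ⬝ᵥ y) := by linear_combination a1
    exact mul_left_cancel₀ h2 this
  have hone : Cᵀ * J * C = 1 := by
    ext i j
    have := hq (Pi.single i 1) (Pi.single j 1)
    simpa [Matrix.one_apply, Pi.single_apply, eq_comm] using this
  refine ⟨C, ?_, hone⟩
  have hd := congrArg Matrix.det hone
  rw [det_mul, det_mul, det_transpose, det_one] at hd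
  exact IsUnit.of_mul_eq_one (C.det * J.det) (by rw [mul_comm]; exact hd)

end Pool.Agent.MT100GO.H34
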