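import Pool.Agent.Helper34_GO.Basic

/-! MT100GO, module SCL. -/

set_option autoImplicit false

namespace Pool.Agent.MT100GO.H34

open Matrix Pool.Agent.MT100G

variable {d : Type*} [Fintype d] [DecidableEq d]

/-- bivectors for the standard form -/
def bw (x y : d → ℂ) : Matrix d d ℂ := vecMulVec x y - vecMulVec y x

omit [Fintype d] [DecidableEq d] in
theorem bw_skew (x y : d → ℂ) : (bw x y)ᵀ = -bw x y := by
  unfold bw
  ext i j
  simp [vecMulVec_apply]
  ring

omit [DecidableEq d] in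
theorem bw_sq (x y : d → ℂ) (hxx : x ⬝ᵥ x = 0) (hxy : x ⬝ᵥ y = 0) :
    bw x y * bw x y = -(y ⬝ᵥ y) • vecMulVec x x := by
  have hyx : y ⬝ᵥ x = 0 := by rw [dotProduct_comm]; exact hxy
  unfold bw
  rw [sub_mul, mul_sub, mul_sub, vecMulVec_mul_vecMulVec, vecMulVec_mul_vecMulVec,
    vecMulVec_mul_vecMulVec, vecMulVec_mul_vecMulVec, hxx, hxy, hyx]
  ext i j
  simp [vecMulVec_apply]

theorem bw_cube (x y : d → ℂ) (hxx : x ⬝ᵥ x = 0) (hxy : x ⬝ᵥ y = 0) : bw x y ^ 3 = 0 := by
  have hyx : y ⬝ᵥ x = 0 := by rw [dotProduct_comm]; exact hxy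
  rw [pow_succ, pow_two, bw_sq x y hxx hxy]
  unfold bw
  rw [smul_mul_assoc, mul_sub, vecMulVec_mul_vecMulVec, vecMulVec_mul_vecMulVec, hxx, hxy]
  ext i j
  simp [vecMulVec_apply]

omit [DecidableEq d] in
/-- transfer of skew matrices to the form `J` -/
theorem tr_skew {J C X : Matrix d d ℂ} (hJ : Jᵀ = J) (hX : Xᵀ = -X) :
    (C * X * (Cᵀ * J))ᵀ * J + J * (C * X * (Cᵀ * J)) = 0 := by
  rw [transpose_mul, transpose_mul, transpose_mul, transpose_transpose, hJ, hX]
  simp only [neg_mul, mul_neg, mul_assoc]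
  exact neg_add_cancel _

theorem tr_mul {J C X Y : Matrix d d ℂ} (hC : Cᵀ * J * C = 1) :
    (C * X * (Cᵀ * J)) * (C * Y * (Cᵀ * J)) = C * (X * Y) * (Cᵀ * J) := by
  have : (C * X * (Cᵀ * J)) * (C * Y * (Cᵀ * J)) = C * X * (Cᵀ * J * C) * (Y * (Cᵀ * J)) := by
    noncomm_ring
  rw [this, hC]
  noncomm_ring

theorem tr_cube {J C X : Matrix d d ℂ} (hC : Cᵀ * J * C = 1) (hX : X ^ 3 = 0) :
    (C * X * (Cᵀ * J)) ^ 3 = 0 := by
  rw [pow_succ, pow_two, tr_mul hC, tr_mul hC]
  have : X * X * X = 0 := by rw [← hX]; noncomm_ring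
  rw [this]
  simp

/-- a matrix which commutes with the elementary skew matrices is a scalar -/
theorem scal_of_comm (h3 : 3 ≤ Fintype.card d) (a : Matrix d d ℂ)
    (h : ∀ i k : d, i ≠ k → a * bw (Pi.single i 1) (Pi.single k 1) =
      bw (Pi.single i 1) (Pi.single k 1) * a) : Scal a := by
  have hent : ∀ i k p q : d, i ≠ k → a p i * (if q = k then 1 else 0) -
      a p k * (if q = i then 1 else 0) =
      (if p = i then 1 else 0) * a k q - (if p = k then 1 else 0) * a i q := by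
    intro i k p q hik
    have := congrFun (congrFun (h i k hik) p) q
    unfold bw at this
    rw [mul_sub, sub_mul, mul_vecMulVec, mul_vecMulVec, vecMulVec_mul, vecMulVec_mul] at this
    simpa [vecMulVec_apply, Pi.single_apply, eq_comm] using this
  have hex : ∀ i p : d, ∃ k, k ≠ i ∧ k ≠ p := by
    intro i p
    by_contra hc
    push Not at hc
    have hsub : (Finset.univ : Finset d) ⊆ {i, p} := by
      intro k _
      by_cases hk : k = i
      · simp [hk]
      · simp [hc k hk]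
    have := Finset.card_le_card hsub
    have h5 : ({i, p} : Finset d).card ≤ 2 := Finset.card_le_two
    rw [Finset.card_univ] at this
    omega
  have hoff : ∀ p i : d, p ≠ i → a p i = 0 := by
    intro p i hpi
    obtain ⟨k, hk1, hk2⟩ := hex i p
    have := hent i k p k hk1.symm
    simpa [hk1, hk2, hpi, Ne.symm hk2] using this
  have hdiag : ∀ i k : d, a i i = a k k := by
    intro i k
    by_cases hik : i = k
    · rw [hik]
    · have := hent i k i k hik
      simpa [hik, Ne.symm hik] using this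
  obtain ⟨i0⟩ : Nonempty d := by
    rw [← Fintype.card_pos_iff]; omega
  refine ⟨a i0 i0, ?_⟩
  ext p q
  by_cases hpq : p = q
  · subst hpq
    simp [hdiag p i0]
  · simp [hoff p q hpq, Matrix.one_apply, hpq]

theorem ex3 (h3 : 3 ≤ Fintype.card d) (i k : d) : ∃ j : d, j ≠ i ∧ j ≠ k := by
  by_contra hc
  push Not at hc
  have hsub : (Finset.univ : Finset d) ⊆ {i, k} := by
    intro j _
    by_cases hj : j = i
    · simp [hj]
    · simp [hc j hj]
  have := Finset.card_le_card hsub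
  have h5 : ({i, k} : Finset d).card ≤ 2 := Finset.card_le_two
  rw [Finset.card_univ] at this
  omega

/-- the isotropic vectors `eᵢ ± √-1 eⱼ` -/
theorem iso_vec {i j k : d} (hij : j ≠ i) (hjk : j ≠ k) (hik : i ≠ k) (c : ℂ) (hc : c * c = -1) :
    (Pi.single i (1 : ℂ) + c • Pi.single j (1 : ℂ) : d → ℂ) ⬝ᵥ
        (Pi.single i (1 : ℂ) + c • Pi.single j (1 : ℂ)) = 0 ∧
      (Pi.single i (1 : ℂ) + c • Pi.single j (1 : ℂ) : d → ℂ) ⬝ᵥ Pi.single k (1 : ℂ) = 0 := by
  constructor
  · simp [dotProduct_add, hij, Ne.symm hij, hc]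
  · simp [Ne.symm hjk, Ne.symm hik]

theorem scl : SclStmt := by
  intro d _ _ J0 hs hu h3
  set J : Matrix d d ℂ := J0.map (algebraMap ℚ ℂ) with hJdef
  have hJ : Jᵀ = J := by rw [hJdef, ← transpose_map, hs]
  have hJu : IsUnit J.det := by
    have : J.det = algebraMap ℚ ℂ J0.det := by
      rw [hJdef, ← RingHom.mapMatrix_apply, ← RingHom.map_det]
    rw [this]
    exact hu.map _
  obtain ⟨C, hCu, hC⟩ := exists_congr J hJ hJu
  have hC2 : C * (Cᵀ * J) = 1 := mul_eq_one_comm.mp hC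
  refine ⟨?_, ?_, ?_⟩
  · intro a ha hcomm
    set a' := Cᵀ * J * a * C with ha'
    have h1 : ∀ X' : Matrix d d ℂ, X' ^ 3 = 0 → X'ᵀ = -X' → a' * X' = X' * a' := by
      intro X' hX3 hXs
      have h2 := hcomm (C * X' * (Cᵀ * J)) (tr_cube hC hX3) (tr_skew hJ hXs)
      have e1 : a' * X' = Cᵀ * J * (a * (C * X' * (Cᵀ * J))) * C := by
        have : Cᵀ * J * (a * (C * X' * (Cᵀ * J))) * C = Cᵀ * J * a * C * X' * (Cᵀ * J * C) := by
          noncomm_ring
        rw [this, hC, mul_one]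
      have e2 : Cᵀ * J * ((C * X' * (Cᵀ * J)) * a) * C = X' * a' := by
        have : Cᵀ * J * ((C * X' * (Cᵀ * J)) * a) * C = (Cᵀ * J * C) * X' * (Cᵀ * J * a * C) := by
          noncomm_ring
        rw [this, hC, one_mul]
      rw [e1, h2, e2]
    have h4 : Scal a' := by
      apply scal_of_comm h3
      intro i k hik
      obtain ⟨j, hji, hjk⟩ := ex3 h3 i k
      have b1 := iso_vec hji hjk hik Complex.I (by simp)
      have b2 := iso_vec hji hjk hik (-Complex.I) (by simp)
      have c1 := h1 _ (bw_cube _ _ b1.1 b1.2) (bw_skew _ _)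
      have c2 := h1 _ (bw_cube _ _ b2.1 b2.2) (bw_skew _ _)
      have hsum : bw (Pi.single i (1 : ℂ) + Complex.I • Pi.single j (1 : ℂ)) (Pi.single k (1 : ℂ)) +
          bw (Pi.single i (1 : ℂ) + (-Complex.I) • Pi.single j (1 : ℂ)) (Pi.single k (1 : ℂ)) =
          (2 : ℂ) • bw (Pi.single i 1) (Pi.single k 1) := by
        ext p q
        simp [bw, vecMulVec_apply]
        ring
      have c3 : a' * ((2 : ℂ) • bw (Pi.single i 1) (Pi.single k 1)) =
          ((2 : ℂ) • bw (Pi.single i 1) (Pi.single k 1)) * a' := by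
        rw [← hsum, mul_add, add_mul, c1, c2]
      rw [Matrix.mul_smul, Matrix.smul_mul] at c3
      exact smul_right_injective _ two_ne_zero c3
    obtain ⟨c, hc⟩ := h4
    refine ⟨c, ?_⟩
    have e3 : a = C * a' * (Cᵀ * J) := by
      have : C * a' * (Cᵀ * J) = (C * (Cᵀ * J)) * a * (C * (Cᵀ * J)) := by
        rw [ha']; noncomm_ring
      rw [this, hC2, one_mul, mul_one]
    rw [e3, hc]
    simp only [Matrix.mul_smul, Matrix.smul_mul, mul_one, hC2]
  · intro X hX3 hXs
    have hXX : X * X * X = 0 := by rw [← hX3]; noncomm_ring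
    have hinv : ∀ s : ℂ, (1 + s • X + (s ^ 2 / 2) • X ^ 2) *
        (1 + (-s) • X + (s ^ 2 / 2) • X ^ 2) = 1 := by
      intro s
      have hX4 : X ^ 2 * X ^ 2 = 0 := by
        have : X ^ 2 * X ^ 2 = X * (X * X * X) := by noncomm_ring
        rw [this, hXX, mul_zero]
      have hX31 : X ^ 2 * X = 0 := by rw [pow_two]; exact hXX
      have hX32 : X * X ^ 2 = 0 := by rw [pow_two, ← mul_assoc]; exact hXX
      simp only [add_mul, mul_add, one_mul, mul_one, Matrix.smul_mul, Matrix.mul_smul, hX4, hX31,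
        hX32, smul_zero, add_zero, ← pow_two X, smul_smul]
      module
    have hform : ∀ s : ℂ, (1 + s • X + (s ^ 2 / 2) • X ^ 2)ᵀ * J *
        (1 + s • X + (s ^ 2 / 2) • X ^ 2) = J := by
      intro s
      have h5 : Xᵀ * J = -(J * X) := eq_neg_of_add_eq_zero_left hXs
      have h6 : (X ^ 2)ᵀ * J = J * X ^ 2 := by
        rw [pow_two, transpose_mul, mul_assoc, h5, mul_neg, ← mul_assoc, h5]
        noncomm_ring
      have h7 : (1 + s • X + (s ^ 2 / 2) • X ^ 2)ᵀ * J =
          J * (1 + (-s) • X + (s ^ 2 / 2) • X ^ 2) := by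
        rw [transpose_add, transpose_add, transpose_smul, transpose_smul, transpose_one, add_mul,
          add_mul, Matrix.smul_mul, Matrix.smul_mul, h5, h6, mul_add, mul_add, Matrix.mul_smul,
          Matrix.mul_smul]
        simp
      have h8 := hinv (-s)
      rw [neg_neg, neg_sq] at h8
      rw [h7, mul_assoc, h8, mul_one]
    have hdet2 : ∀ s : ℂ, (1 + s • X + (s ^ 2 / 2) • X ^ 2).det ^ 2 = 1 := by
      intro s
      have h9 := congrArg Matrix.det (hform s)
      rw [det_mul, det_mul, det_transpose] at h9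
      have : J.det * ((1 + s • X + (s ^ 2 / 2) • X ^ 2).det ^ 2) = J.det * 1 := by
        rw [mul_one]; linear_combination h9
      exact mul_left_cancel₀ hJu.ne_zero this
    have hsq : ∀ s : ℂ, (1 + (s / 2) • X + ((s / 2) ^ 2 / 2) • X ^ 2) *
        (1 + (s / 2) • X + ((s / 2) ^ 2 / 2) • X ^ 2) = 1 + s • X + (s ^ 2 / 2) • X ^ 2 := by
      intro s
      have hX4 : X ^ 2 * X ^ 2 = 0 := by
        have : X ^ 2 * X ^ 2 = X * (X * X * X) := by noncomm_ring
        rw [this, hXX, mul_zero]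
      have hX31 : X ^ 2 * X = 0 := by rw [pow_two]; exact hXX
      have hX32 : X * X ^ 2 = 0 := by rw [pow_two, ← mul_assoc]; exact hXX
      simp only [add_mul, mul_add, one_mul, mul_one, Matrix.smul_mul, Matrix.mul_smul, hX4, hX31,
        hX32, smul_zero, add_zero, ← pow_two X, smul_smul]
      module
    intro s
    refine ⟨⟨hform s, ?_⟩, hinv s⟩
    rw [← hsq s, det_mul, ← pow_two]
    exact hdet2 (s / 2)
  · obtain ⟨i⟩ : Nonempty d := by
      rw [← Fintype.card_pos_iff]; omega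
    obtain ⟨k, hki, _⟩ := ex3 h3 i i
    obtain ⟨j, hji, hjk⟩ := ex3 h3 i k
    have b1 := iso_vec hji hjk (Ne.symm hki) Complex.I (by simp)
    set X' := bw (Pi.single i (1 : ℂ) + Complex.I • Pi.single j (1 : ℂ)) (Pi.single k (1 : ℂ))
      with hX'
    refine ⟨C * X' * (Cᵀ * J), ?_, tr_cube hC (bw_cube _ _ b1.1 b1.2), tr_skew hJ (bw_skew _ _)⟩
    intro h0
    have e1 : X' = (Cᵀ * J) * (C * X' * (Cᵀ * J)) * C := by
      have : (Cᵀ * J) * (C * X' * (Cᵀ * J)) * C = (Cᵀ * J * C) * X' * (Cᵀ * J * C) := by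
        noncomm_ring
      rw [this, hC, one_mul, mul_one]
    rw [h0, mul_zero, zero_mul] at e1
    have e2 := congrFun (congrFun e1 i) k
    simp [hX', bw, vecMulVec_apply, hki, Ne.symm hki, Ne.symm hji, hjk, Ne.symm hjk] at e2

end Pool.Agent.MT100GO.H34
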